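import Mathlib
import Pool.Agent.Lib.MP_fe1391_co.Quad51.Fin51

/-!
# Freeness and palindromic Solomon-Terao polynomials: all arrangements in dimension four

For every field `K` and every central arrangement `A` in `K^4`, the arrangement is free if and only
if `Ψ(A; x, -1)` is a palindromic polynomial, if and only if it is a product of four factors
`1 + x + ... + x^d`. There is no other assumption (no tameness, no condition on `K`).
-/

set_option autoImplicit false

namespace Pool.Agent.Results.MP_fe1391_co.DimensionFour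

/-- The `S`-module of logarithmic derivations of a central arrangement in `K^ℓ`. -/
noncomputable def LogDer (K : Type*) [Field K] {ℓ : ℕ} (A : Finset (Submodule K (Fin ℓ → K))) :
    Submodule (MvPolynomial (Fin ℓ) K)
      (Derivation K (MvPolynomial (Fin ℓ) K) (MvPolynomial (Fin ℓ) K)) :=
  Submodule.span (MvPolynomial (Fin ℓ) K)
    {θ : Derivation K (MvPolynomial (Fin ℓ) K) (MvPolynomial (Fin ℓ) K) |
      ∀ H ∈ A, ∀ a : Module.Dual K (Fin ℓ → K), LinearMap.ker a = H →
        (∑ i : Fin ℓ, MvPolynomial.C (a (Pi.single i 1)) * MvPolynomial.X i) ∣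
          θ (∑ i : Fin ℓ, MvPolynomial.C (a (Pi.single i 1)) * MvPolynomial.X i)}

/-- The space of logarithmic `p`-derivations that are homogeneous of degree `k`. -/
noncomputable def LogDerDeg (K : Type*) [Field K] {ℓ : ℕ} (A : Finset (Submodule K (Fin ℓ → K)))
    (p k : ℕ) : Submodule K
      (AlternatingMap K (MvPolynomial (Fin ℓ) K) (MvPolynomial (Fin ℓ) K) (Fin p)) :=
  Submodule.span K
    {θ : AlternatingMap K (MvPolynomial (Fin ℓ) K) (MvPolynomial (Fin ℓ) K) (Fin p) |
      (∀ (v : Fin p → MvPolynomial (Fin ℓ) K) (j : Fin p) (u w : MvPolynomial (Fin ℓ) K),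
          θ (Function.update v j (u * w)) =
            u * θ (Function.update v j w) + w * θ (Function.update v j u)) ∧
      (∀ H ∈ A, ∀ a : Module.Dual K (Fin ℓ → K), LinearMap.ker a = H →
          ∀ (v : Fin p → MvPolynomial (Fin ℓ) K) (j : Fin p),
            v j = (∑ i : Fin ℓ, MvPolynomial.C (a (Pi.single i 1)) * MvPolynomial.X i) →
            (∑ i : Fin ℓ, MvPolynomial.C (a (Pi.single i 1)) * MvPolynomial.X i) ∣ θ v) ∧
      (∀ w : Fin p → Fin ℓ, (θ (fun j => MvPolynomial.X (w j))).IsHomogeneous k)}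

/-- `Ψ(A; x, -1) = ∑ₚ Hilb(Dᵖ(A); x) (-x)ᵖ`, as a power series. -/
noncomputable def Psi (K : Type*) [Field K] {ℓ : ℕ} (A : Finset (Submodule K (Fin ℓ → K))) :
    PowerSeries ℤ :=
  ∑ p ∈ Finset.range (ℓ + 1),
    PowerSeries.mk (fun k : ℕ => ((Module.finrank K (LogDerDeg K A p k) : ℕ) : ℤ)) *
      (-PowerSeries.X) ^ p

/-- For a central arrangement `A` in `K^4` (`K` any field): `A` is free iff `Ψ(A; x, -1)` is a
nonzero palindromic polynomial, iff `Ψ(A; x, -1)` is a product `∏ᵢ (1 + x + ... + x^{dᵢ})` of four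
factors. -/
theorem result (K : Type*) [Field K] (A : Finset (Submodule K (Fin 4 → K)))
    (hA : ∀ H ∈ A, ∃ a : Module.Dual K (Fin 4 → K), a ≠ 0 ∧ LinearMap.ker a = H) :
    List.TFAE [Module.Free (MvPolynomial (Fin 4) K) (LogDer K A),
      ∃ f : Polynomial ℤ, f ≠ 0 ∧ f.reverse = f ∧ (f : PowerSeries ℤ) = Psi K A,
      ∃ d : Fin 4 → ℕ, Psi K A = ∏ i, ∑ j ∈ Finset.range (d i + 1), PowerSeries.X ^ j] :=
  Pool.Agent.Lib.MP_fe1391_co.Quad51.main51 K A hA

end Pool.Agent.Results.MP_fe1391_co.DimensionFour
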