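import Mathlib
import Pool.Agent.Lib.MP_fe1391_co.Thick51.AsmF

/-!
# Large arrangements defined over a finite field

Let `F` be a finite field with `q` elements, `K` any field containing `F`, `ℓ ≥ 2`, and `A` a
central arrangement in `K^ℓ` all of whose hyperplanes are defined over `F`, with at least
`(1 + q + ⋯ + q^(ℓ-2)) + q^(ℓ-2)` hyperplanes. Then `A` is free if and only if `Ψ(A; x, -1)` is of
the product form or is a palindromic polynomial of degree at most
`2 (|A| - (1 + q + ⋯ + q^(ℓ-2))) + 1`.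
-/

set_option autoImplicit false

namespace Pool.Agent.Results.MP_fe1391_co.FiniteFields

/-- The `S`-module of logarithmic derivations of a central arrangement in `K^ℓ`. -/
noncomputable def LogDer (K : Type*) [Field K] {ℓ : ℕ} (A : Finset (Submodule K (Fin ℓ → K))) :
    Submodule (MvPolynomial (Fin ℓ) K)
      (Derivation K (MvPolynomial (Fin ℓ) K) (MvPolynomial (Fin ℓ) K)) :=
  Submodule.span (MvPolynomial (Fin ℓ) K)
    {θ : Derivation K (MvPolynomial (Fin ℓ) K) (MvPolynomial (Fin ℓ) K) |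
      ∀ H ∈ A, ∀ a : Module.Dual K (Fin ℓ → K), LinearMap.ker a = H →
        (∑ i : Fin ℓ, MvPolynomial.C (a (Pi.single i 1)) * MvPolynomial.X i) ∣
          θ (∑ i : Fin ℓ, MvPolynomial.C (a (Pi.single i 1)) * MvPolynomial.X i)}

/-- The space of logarithmic `p`-derivations that are homogeneous of degree `k`. -/
noncomputable def LogDerDeg (K : Type*) [Field K] {ℓ : ℕ} (A : Finset (Submodule K (Fin ℓ → K)))
    (p k : ℕ) : Submodule K
      (AlternatingMap K (MvPolynomial (Fin ℓ) K) (MvPolynomial (Fin ℓ) K) (Fin p)) :=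
  Submodule.span K
    {θ : AlternatingMap K (MvPolynomial (Fin ℓ) K) (MvPolynomial (Fin ℓ) K) (Fin p) |
      (∀ (v : Fin p → MvPolynomial (Fin ℓ) K) (j : Fin p) (u w : MvPolynomial (Fin ℓ) K),
          θ (Function.update v j (u * w)) =
            u * θ (Function.update v j w) + w * θ (Function.update v j u)) ∧
      (∀ H ∈ A, ∀ a : Module.Dual K (Fin ℓ → K), LinearMap.ker a = H →
          ∀ (v : Fin p → MvPolynomial (Fin ℓ) K) (j : Fin p),
            v j = (∑ i : Fin ℓ, MvPolynomial.C (a (Pi.single i 1)) * MvPolynomial.X i) →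
            (∑ i : Fin ℓ, MvPolynomial.C (a (Pi.single i 1)) * MvPolynomial.X i) ∣ θ v) ∧
      (∀ w : Fin p → Fin ℓ, (θ (fun j => MvPolynomial.X (w j))).IsHomogeneous k)}

/-- `Ψ(A; x, -1) = ∑ₚ Hilb(Dᵖ(A); x) (-x)ᵖ`, as a power series. -/
noncomputable def Psi (K : Type*) [Field K] {ℓ : ℕ} (A : Finset (Submodule K (Fin ℓ → K))) :
    PowerSeries ℤ :=
  ∑ p ∈ Finset.range (ℓ + 1),
    PowerSeries.mk (fun k : ℕ => ((Module.finrank K (LogDerDeg K A p k) : ℕ) : ℤ)) *
      (-PowerSeries.X) ^ p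

/-- Let `A` be defined over the finite field `F`, with at least
`(1 + q + ⋯ + q^(ℓ-2)) + q^(ℓ-2)` hyperplanes, `q = |F|`. Then `A` is free if and only if
`Ψ(A; x, -1)` is of the product form or is a palindromic polynomial of degree at most
`2 (|A| - (1 + q + ⋯ + q^(ℓ-2))) + 1`. -/
theorem result (K : Type*) [Field K] (F : Type*) [Field F] [Fintype F] [Algebra F K]
    (ℓ : ℕ) (hℓ : 2 ≤ ℓ) (A : Finset (Submodule K (Fin ℓ → K)))
    (hA : ∀ H ∈ A, ∃ a : Module.Dual K (Fin ℓ → K), a ≠ 0 ∧ LinearMap.ker a = H ∧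
      ∀ i, ∃ c : F, a (Pi.single i 1) = algebraMap F K c)
    (hn : ∑ j ∈ Finset.range (ℓ - 1), Fintype.card F ^ j + Fintype.card F ^ (ℓ - 2) ≤ A.card) :
    Module.Free (MvPolynomial (Fin ℓ) K) (LogDer K A) ↔
      ((∃ d : Fin ℓ → ℕ, Psi K A =
        ∏ i, ∑ j ∈ Finset.range (d i + 1), PowerSeries.X ^ j) ∨
      ∃ f : Polynomial ℤ,
        f.natDegree ≤ 2 * (A.card - ∑ j ∈ Finset.range (ℓ - 1), Fintype.card F ^ j) + 1 ∧
        f.reverse = f ∧ (f : PowerSeries ℤ) = Psi K A) :=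
  Pool.Agent.Lib.MP_fe1391_co.Thick51.thmF51 K F ℓ hℓ A hA hn

end Pool.Agent.Results.MP_fe1391_co.FiniteFields
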