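import Mathlib
import Pool.Agent.Lib.MP_fe1391_co.CX42.Fin42

/-!
# Palindromic Solomon-Terao polynomials of arrangements that are not free

For every field `K` of characteristic different from `2` and `3` and every `ℓ ≥ 16` there is a
central arrangement of `ℓ + 18` hyperplanes in `K^ℓ` that is not free although `Ψ(A; x, -1)` is a
palindromic polynomial, of degree `ℓ + 18`.
-/

set_option autoImplicit false

namespace Pool.Agent.Results.MP_fe1391_co.PalindromicNotFree

/-- The `S`-module of logarithmic derivations of a central arrangement in `K^ℓ`. -/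
noncomputable def LogDer (K : Type*) [Field K] {ℓ : ℕ} (A : Finset (Submodule K (Fin ℓ → K))) :
    Submodule (MvPolynomial (Fin ℓ) K)
      (Derivation K (MvPolynomial (Fin ℓ) K) (MvPolynomial (Fin ℓ) K)) :=
  Submodule.span (MvPolynomial (Fin ℓ) K)
    {θ : Derivation K (MvPolynomial (Fin ℓ) K) (MvPolynomial (Fin ℓ) K) |
      ∀ H ∈ A, ∀ a : Module.Dual K (Fin ℓ → K), LinearMap.ker a = H →
        (∑ i : Fin ℓ, MvPolynomial.C (a (Pi.single i 1)) * MvPolynomial.X i) ∣
          θ (∑ i : Fin ℓ, MvPolynomial.C (a (Pi.single i 1)) * MvPolynomial.X i)}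

/-- The space of logarithmic `p`-derivations that are homogeneous of degree `k`. -/
noncomputable def LogDerDeg (K : Type*) [Field K] {ℓ : ℕ} (A : Finset (Submodule K (Fin ℓ → K)))
    (p k : ℕ) : Submodule K
      (AlternatingMap K (MvPolynomial (Fin ℓ) K) (MvPolynomial (Fin ℓ) K) (Fin p)) :=
  Submodule.span K
    {θ : AlternatingMap K (MvPolynomial (Fin ℓ) K) (MvPolynomial (Fin ℓ) K) (Fin p) |
      (∀ (v : Fin p → MvPolynomial (Fin ℓ) K) (j : Fin p) (u w : MvPolynomial (Fin ℓ) K),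
          θ (Function.update v j (u * w)) =
            u * θ (Function.update v j w) + w * θ (Function.update v j u)) ∧
      (∀ H ∈ A, ∀ a : Module.Dual K (Fin ℓ → K), LinearMap.ker a = H →
          ∀ (v : Fin p → MvPolynomial (Fin ℓ) K) (j : Fin p),
            v j = (∑ i : Fin ℓ, MvPolynomial.C (a (Pi.single i 1)) * MvPolynomial.X i) →
            (∑ i : Fin ℓ, MvPolynomial.C (a (Pi.single i 1)) * MvPolynomial.X i) ∣ θ v) ∧
      (∀ w : Fin p → Fin ℓ, (θ (fun j => MvPolynomial.X (w j))).IsHomogeneous k)}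

/-- `Ψ(A; x, -1) = ∑ₚ Hilb(Dᵖ(A); x) (-x)ᵖ`, as a power series. -/
noncomputable def Psi (K : Type*) [Field K] {ℓ : ℕ} (A : Finset (Submodule K (Fin ℓ → K))) :
    PowerSeries ℤ :=
  ∑ p ∈ Finset.range (ℓ + 1),
    PowerSeries.mk (fun k : ℕ => ((Module.finrank K (LogDerDeg K A p k) : ℕ) : ℤ)) *
      (-PowerSeries.X) ^ p

/-- For a field `K` in which `2` and `3` are nonzero and `ℓ ≥ 16` there is an arrangement of
`ℓ + 18` hyperplanes in `K^ℓ` that is not free, although `Ψ(A; x, -1)` is a palindromic polynomial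
of degree `ℓ + 18`. -/
theorem result (K : Type*) [Field K] (h2 : (2 : K) ≠ 0) (h3 : (3 : K) ≠ 0) (ℓ : ℕ)
    (hℓ : 16 ≤ ℓ) : ∃ A : Finset (Submodule K (Fin ℓ → K)),
      (∀ H ∈ A, ∃ a : Module.Dual K (Fin ℓ → K), a ≠ 0 ∧ LinearMap.ker a = H) ∧
      A.card = ℓ + 18 ∧
      (∃ f : Polynomial ℤ, f ≠ 0 ∧ f.reverse = f ∧ f.natDegree = ℓ + 18 ∧
        (f : PowerSeries ℤ) = Psi K A) ∧
      ¬ Module.Free (MvPolynomial (Fin ℓ) K) (LogDer K A) := by
  obtain ⟨A, h4, h5, h6, h7, _⟩ := Pool.Agent.Lib.MP_fe1391_co.CX42.main42 K h2 h3 ℓ hℓ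
  exact ⟨A, h4, h5, h6, h7⟩

end Pool.Agent.Results.MP_fe1391_co.PalindromicNotFree
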