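import Mathlib
import Pool.Agent.Lib.MP_fe1391_co.Tame.Final

/-!
# Freeness and palindromic Solomon-Terao polynomials: tame arrangements

For every field `K`, every `ℓ` and every tame central arrangement `A` in `K^ℓ`, the arrangement is
free if and only if `Ψ(A; x, -1)` is a palindromic polynomial, if and only if it is a product of
`ℓ` factors `1 + x + ... + x^d`. Tame means that the module `Dᵖ(A)` of logarithmic
`p`-derivations has projective dimension at most `ℓ - p` for every `p`; this is automatic for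
`p ≤ 2` and for `p = ℓ`, so that it is only assumed for `3 ≤ p < ℓ` (and every arrangement in
dimension `ℓ ≤ 3` is tame).
-/

set_option autoImplicit false

namespace Pool.Agent.Results.MP_fe1391_co.TameArrangements

/-- The `S`-module of logarithmic derivations of a central arrangement in `K^ℓ`. -/
noncomputable def LogDer (K : Type*) [Field K] {ℓ : ℕ} (A : Finset (Submodule K (Fin ℓ → K))) :
    Submodule (MvPolynomial (Fin ℓ) K)
      (Derivation K (MvPolynomial (Fin ℓ) K) (MvPolynomial (Fin ℓ) K)) :=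
  Submodule.span (MvPolynomial (Fin ℓ) K)
    {θ : Derivation K (MvPolynomial (Fin ℓ) K) (MvPolynomial (Fin ℓ) K) |
      ∀ H ∈ A, ∀ a : Module.Dual K (Fin ℓ → K), LinearMap.ker a = H →
        (∑ i : Fin ℓ, MvPolynomial.C (a (Pi.single i 1)) * MvPolynomial.X i) ∣
          θ (∑ i : Fin ℓ, MvPolynomial.C (a (Pi.single i 1)) * MvPolynomial.X i)}

/-- The `S`-module `Dᵖ(A)` of logarithmic `p`-derivations: the alternating `K`-multilinear maps
`Sᵖ → S` that are derivations in each argument and whose value is divisible by `α_H` whenever one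
of the arguments is `α_H` (`H ∈ A`). -/
noncomputable def LogDerP (K : Type*) [Field K] {ℓ : ℕ} (A : Finset (Submodule K (Fin ℓ → K)))
    (p : ℕ) : Submodule (MvPolynomial (Fin ℓ) K)
      (AlternatingMap K (MvPolynomial (Fin ℓ) K) (MvPolynomial (Fin ℓ) K) (Fin p)) :=
  Submodule.span (MvPolynomial (Fin ℓ) K)
    {θ : AlternatingMap K (MvPolynomial (Fin ℓ) K) (MvPolynomial (Fin ℓ) K) (Fin p) |
      (∀ (v : Fin p → MvPolynomial (Fin ℓ) K) (j : Fin p) (u w : MvPolynomial (Fin ℓ) K),
          θ (Function.update v j (u * w)) =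
            u * θ (Function.update v j w) + w * θ (Function.update v j u)) ∧
      (∀ H ∈ A, ∀ a : Module.Dual K (Fin ℓ → K), LinearMap.ker a = H →
          ∀ (v : Fin p → MvPolynomial (Fin ℓ) K) (j : Fin p),
            v j = (∑ i : Fin ℓ, MvPolynomial.C (a (Pi.single i 1)) * MvPolynomial.X i) →
            (∑ i : Fin ℓ, MvPolynomial.C (a (Pi.single i 1)) * MvPolynomial.X i) ∣ θ v)}

/-- The space of logarithmic `p`-derivations that are homogeneous of degree `k`. -/
noncomputable def LogDerDeg (K : Type*) [Field K] {ℓ : ℕ} (A : Finset (Submodule K (Fin ℓ → K)))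
    (p k : ℕ) : Submodule K
      (AlternatingMap K (MvPolynomial (Fin ℓ) K) (MvPolynomial (Fin ℓ) K) (Fin p)) :=
  Submodule.span K
    {θ : AlternatingMap K (MvPolynomial (Fin ℓ) K) (MvPolynomial (Fin ℓ) K) (Fin p) |
      (∀ (v : Fin p → MvPolynomial (Fin ℓ) K) (j : Fin p) (u w : MvPolynomial (Fin ℓ) K),
          θ (Function.update v j (u * w)) =
            u * θ (Function.update v j w) + w * θ (Function.update v j u)) ∧
      (∀ H ∈ A, ∀ a : Module.Dual K (Fin ℓ → K), LinearMap.ker a = H →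
          ∀ (v : Fin p → MvPolynomial (Fin ℓ) K) (j : Fin p),
            v j = (∑ i : Fin ℓ, MvPolynomial.C (a (Pi.single i 1)) * MvPolynomial.X i) →
            (∑ i : Fin ℓ, MvPolynomial.C (a (Pi.single i 1)) * MvPolynomial.X i) ∣ θ v) ∧
      (∀ w : Fin p → Fin ℓ, (θ (fun j => MvPolynomial.X (w j))).IsHomogeneous k)}

/-- `Ψ(A; x, -1) = ∑ₚ Hilb(Dᵖ(A); x) (-x)ᵖ`, as a power series. -/
noncomputable def Psi (K : Type*) [Field K] {ℓ : ℕ} (A : Finset (Submodule K (Fin ℓ → K))) :
    PowerSeries ℤ :=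
  ∑ p ∈ Finset.range (ℓ + 1),
    PowerSeries.mk (fun k : ℕ => ((Module.finrank K (LogDerDeg K A p k) : ℕ) : ℤ)) *
      (-PowerSeries.X) ^ p

/-- For a tame central arrangement `A` in `K^ℓ` (`K` any field): `A` is free iff `Ψ(A; x, -1)` is
a nonzero palindromic polynomial, iff `Ψ(A; x, -1)` is a product `∏ᵢ (1 + x + ... + x^{dᵢ})`. -/
theorem result (K : Type*) [Field K] (ℓ : ℕ) (A : Finset (Submodule K (Fin ℓ → K)))
    (hA : ∀ H ∈ A, ∃ a : Module.Dual K (Fin ℓ → K), a ≠ 0 ∧ LinearMap.ker a = H)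
    (htame : ∀ p, 3 ≤ p → p < ℓ → CategoryTheory.HasProjectiveDimensionLE
      (ModuleCat.of (MvPolynomial (Fin ℓ) K) (LogDerP K A p)) (ℓ - p)) :
    List.TFAE [Module.Free (MvPolynomial (Fin ℓ) K) (LogDer K A),
      ∃ f : Polynomial ℤ, f ≠ 0 ∧ f.reverse = f ∧ (f : PowerSeries ℤ) = Psi K A,
      ∃ d : Fin ℓ → ℕ, Psi K A = ∏ i, ∑ j ∈ Finset.range (d i + 1), PowerSeries.X ^ j] :=
  Pool.Agent.Lib.MP_fe1391_co.Tame.Final.thm K ℓ A hA htame

end Pool.Agent.Results.MP_fe1391_co.TameArrangements
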